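import Pool.Agent.W978.QO.Stm
import Pool.Agent.W585.QN.DET
import Pool.Agent.W509.QN.BR
import Pool.Agent.W597.QN.RK

/-!
Task QO-DC (helper978): the determinants, curried form.
-/

namespace Pool.Agent.W930.QO

open Finset Pool.Agent.W978.QN Pool.Agent.W978.QO

theorem mt_eq (a : (Fin 3 → Fin 3) → ℤ) (σ : Equiv.Perm (Fin 3)) (P : Fin 3 → Fin 3 → ℂ)
    (u v : Fin 3) : mt a (σ 1) (σ 2) P u v = mp (cu a σ) (P (σ 0)) v u := by
  have h01 : σ 0 ≠ σ 1 := fun h => absurd (σ.injective h) (by decide)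
  have h02 : σ 0 ≠ σ 2 := fun h => absurd (σ.injective h) (by decide)
  have h12 : σ 1 ≠ σ 2 := fun h => absurd (σ.injective h) (by decide)
  show tf a (Function.update (Function.update P (σ 1) (bv u)) (σ 2) (bv v)) = _
  rw [Pool.Agent.W509.QN.br ℂ a σ, Function.update_of_ne h02, Function.update_of_ne h01,
    Function.update_of_ne h12, Function.update_self, Function.update_self]
  unfold cf mp bv
  refine Finset.sum_congr rfl fun i _ => ?_
  rw [Finset.sum_eq_single u, Finset.sum_eq_single v]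
  · simp
  · intro k _ hk
    simp [Pi.single_eq_of_ne hk]
  · simp
  · intro j _ hj
    simp [Pi.single_eq_of_ne hj]
  · simp

/-- QO-DC -/
theorem dc : S_DC := by
  intro a ha σ
  have h12 : σ 1 ≠ σ 2 := fun h => absurd (σ.injective h) (by decide)
  obtain ⟨P, hP⟩ := Pool.Agent.W585.QN.main Pool.Agent.W509.QN.br
    (Pool.Agent.W597.QN.rk Pool.Agent.W509.QN.br) a ha (σ 1) (σ 2) h12
  refine ⟨P (σ 0), ?_⟩
  have h : Matrix.of (mp (cu a σ) (P (σ 0))) = (mt a (σ 1) (σ 2) P).transpose := by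
    ext v u
    rw [Matrix.transpose_apply, mt_eq]
    rfl
  rw [h, Matrix.det_transpose]
  exact hP

end Pool.Agent.W930.QO
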